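import Pool.Agent.R233.FinType

set_option autoImplicit false

open Topology Filter Asymptotics Set
open scoped ENNReal NNReal ContDiff

/-!
# The egg domain `|x₀|² + |x₁|⁴ + |x₂|² + … < 1`: automorphisms, Cayley map
-/

namespace Pool.Agent.U500.Egg

open Pool.Agent.R233

variable {m : ℕ}

/-- exponents: `2` at the coordinate `1` and `1` at the other coordinates -/
def ex (m : ℕ) : Fin (m + 2) → ℕ := Fin.cons 1 (Fin.cons 2 fun _ => 1)

/-- the holomorphic functions whose squares are added up -/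
def FF (m : ℕ) (i : Fin (m + 2)) (x : Fin (m + 2) → ℂ) : ℂ := x i ^ ex m i

/-- `|x₀|² + |x₁|⁴ + |x₂|² + …` -/
noncomputable def Phi (x : Fin (m + 2) → ℂ) : ℝ := ∑ i, ‖FF m i x‖ ^ 2

/-- the sum over the remaining coordinates -/
noncomputable def SS (x : Fin (m + 2) → ℂ) : ℝ := ∑ i : Fin m, ‖x i.succ.succ‖ ^ 2

/-- the egg domain -/
def Dom (m : ℕ) : Set (Fin (m + 2) → ℂ) := {x | Phi x < 1}

lemma Phi_eq (x : Fin (m + 2) → ℂ) : Phi x = ‖x 0‖ ^ 2 + ‖x 1‖ ^ 4 + SS x := by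
  unfold Phi FF SS
  rw [Fin.sum_univ_succ, Fin.sum_univ_succ]
  simp only [ex, Fin.cons_zero, Fin.cons_succ, pow_one, norm_pow]
  have h1 : (0 : Fin (m + 1)).succ = (1 : Fin (m + 2)) := rfl
  rw [h1]
  ring

lemma SS_nonneg (x : Fin (m + 2) → ℂ) : 0 ≤ SS x := Finset.sum_nonneg fun i _ => by positivity

lemma FF_diff (i) : Differentiable ℂ (FF m i) := by
  unfold FF; fun_prop

lemma FF_contDiff (i) : ContDiff ℂ ∞ (FF m i) := by
  unfold FF; fun_prop

lemma Phi_contDiff : ContDiff ℝ ∞ (Phi (m := m)) := by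
  unfold Phi
  refine ContDiff.sum fun l _ => ?_
  have h1 : ContDiff ℝ ∞ (FF m l) := (FF_contDiff l).restrict_scalars ℝ
  exact h1.norm_sq ℝ

lemma Phi_continuous : Continuous (Phi (m := m)) := Phi_contDiff.continuous

lemma Dom_open : IsOpen (Dom m) := isOpen_lt Phi_continuous continuous_const

lemma Phi_zero : Phi (0 : Fin (m + 2) → ℂ) = 0 := by
  rw [Phi_eq]; simp [SS]

lemma zero_mem_Dom : (0 : Fin (m + 2) → ℂ) ∈ Dom m := by
  show Phi _ < 1
  rw [Phi_zero]; exact one_pos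

lemma sq_convex {a b s t : ℝ} (hs : 0 ≤ s) (ht : 0 ≤ t) (hst : s + t = 1) :
    (s * a + t * b) ^ 2 ≤ s * a ^ 2 + t * b ^ 2 := by
  have h : s * a ^ 2 + t * b ^ 2 - (s * a + t * b) ^ 2 = s * t * (a - b) ^ 2 := by
    obtain rfl : t = 1 - s := by linarith
    ring
  nlinarith [mul_nonneg (mul_nonneg hs ht) (sq_nonneg (a - b))]

lemma norm_comb_sq {z w : ℂ} {s t : ℝ} (hs : 0 ≤ s) (ht : 0 ≤ t) (hst : s + t = 1) :
    ‖s • z + t • w‖ ^ 2 ≤ s * ‖z‖ ^ 2 + t * ‖w‖ ^ 2 := by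
  have h1 : ‖s • z + t • w‖ ≤ s * ‖z‖ + t * ‖w‖ := by
    refine (norm_add_le _ _).trans ?_
    rw [norm_smul, norm_smul, Real.norm_of_nonneg hs, Real.norm_of_nonneg ht]
  calc ‖s • z + t • w‖ ^ 2 ≤ (s * ‖z‖ + t * ‖w‖) ^ 2 := by gcongr
    _ ≤ _ := sq_convex hs ht hst

lemma Phi_convex {x y : Fin (m + 2) → ℂ} {s t : ℝ} (hs : 0 ≤ s) (ht : 0 ≤ t) (hst : s + t = 1) :
    Phi (s • x + t • y) ≤ s * Phi x + t * Phi y := by
  rw [Phi_eq, Phi_eq, Phi_eq]
  have h0 : ‖(s • x + t • y) 0‖ ^ 2 ≤ s * ‖x 0‖ ^ 2 + t * ‖y 0‖ ^ 2 := norm_comb_sq hs ht hst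
  have h1 : ‖(s • x + t • y) 1‖ ^ 4 ≤ s * ‖x 1‖ ^ 4 + t * ‖y 1‖ ^ 4 := by
    have h2 : ‖(s • x + t • y) 1‖ ^ 2 ≤ s * ‖x 1‖ ^ 2 + t * ‖y 1‖ ^ 2 := norm_comb_sq hs ht hst
    calc ‖(s • x + t • y) 1‖ ^ 4 = (‖(s • x + t • y) 1‖ ^ 2) ^ 2 := by ring
      _ ≤ (s * ‖x 1‖ ^ 2 + t * ‖y 1‖ ^ 2) ^ 2 := by gcongr
      _ ≤ s * (‖x 1‖ ^ 2) ^ 2 + t * (‖y 1‖ ^ 2) ^ 2 := sq_convex hs ht hst
      _ = _ := by ring
  have h2 : SS (s • x + t • y) ≤ s * SS x + t * SS y := by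
    unfold SS
    rw [Finset.mul_sum, Finset.mul_sum, ← Finset.sum_add_distrib]
    exact Finset.sum_le_sum fun i _ => norm_comb_sq hs ht hst
  linarith

lemma Dom_convex : Convex ℝ (Dom m) := by
  intro x hx y hy s t hs ht hst
  have hx' : Phi x < 1 := hx
  have hy' : Phi y < 1 := hy
  show Phi _ < 1
  refine (Phi_convex hs ht hst).trans_lt ?_
  rcases eq_or_lt_of_le hs with h | h
  · subst h
    have : t = 1 := by linarith
    subst this
    linarith
  · have h1 : s * Phi x < s := by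
      calc s * Phi x < s * 1 := by gcongr
        _ = s := mul_one s
    have h2 : t * Phi y ≤ t := by
      calc t * Phi y ≤ t * 1 := by gcongr
        _ = t := mul_one t
    linarith

lemma Dom_connected : IsConnected (Dom m) :=
  ⟨⟨0, zero_mem_Dom⟩, Dom_convex.isPreconnected⟩

lemma norm_le_of_mem {x : Fin (m + 2) → ℂ} (hx : Phi x ≤ 1) (i : Fin (m + 2)) : ‖x i‖ ≤ 1 := by
  have h1 : ‖FF m i x‖ ^ 2 ≤ Phi x :=
    Finset.single_le_sum (f := fun l => ‖FF m l x‖ ^ 2) (fun l _ => by positivity)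
      (Finset.mem_univ _)
  have h2 : ‖FF m i x‖ ^ 2 = (‖x i‖ ^ ex m i) ^ 2 := by
    have : FF m i x = x i ^ ex m i := rfl
    rw [this, norm_pow]
  rw [h2] at h1
  by_contra hcon
  push Not at hcon
  have hex : ex m i ≠ 0 := by
    unfold ex
    refine Fin.cases ?_ (fun i => ?_) i
    · simp
    · refine Fin.cases ?_ (fun i => ?_) i
      · simp
      · simp
  have h3 : 1 < ‖x i‖ ^ ex m i := one_lt_pow₀ hcon hex
  nlinarith

lemma Dom_bounded : Bornology.IsBounded (Dom m) := by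
  apply (Metric.isBounded_closedBall (x := (0 : Fin (m + 2) → ℂ)) (r := 1)).subset
  intro x hx
  rw [mem_closedBall_zero_iff, pi_norm_le_iff_of_nonneg zero_le_one]
  exact norm_le_of_mem (le_of_lt hx)

lemma Dom_psc : IsPseudoconvex (Dom m) :=
  psc_of_submean Phi Phi_continuous
    (fun x b => submean_sq (FF m) FF_diff x b) Dom_bounded

lemma frontier_Dom {x : Fin (m + 2) → ℂ} (hx : x ∈ frontier (Dom m)) : Phi x = 1 := by
  have h1 := frontier_lt_subset_eq Phi_continuous (continuous_const (y := (1 : ℝ))) hx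
  exact h1

lemma Phi_smul (x : Fin (m + 2) → ℂ) (t : ℝ) :
    Phi (t • x) = t ^ 2 * ‖x 0‖ ^ 2 + t ^ 4 * ‖x 1‖ ^ 4 + t ^ 2 * SS x := by
  rw [Phi_eq]
  unfold SS
  simp only [Pi.smul_apply, norm_smul, mul_pow, Real.norm_eq_abs]
  have e2 : |t| ^ 4 = t ^ 4 := by
    rw [show 4 = 2 * 2 by rfl, pow_mul, sq_abs, ← pow_mul]
  rw [e2, sq_abs, ← Finset.mul_sum]

lemma fderiv_ne {x : Fin (m + 2) → ℂ} (hx : Phi x = 1) : fderiv ℝ (Phi (m := m)) x ≠ 0 := by
  intro h0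
  have hd : HasFDerivAt (Phi (m := m)) (fderiv ℝ Phi x) x :=
    (Phi_contDiff.differentiable (by simp) x).hasFDerivAt
  have h1 : HasDerivAt (fun t : ℝ => t • x) x 1 := by
    simpa using (hasDerivAt_id (1 : ℝ)).smul_const x
  have h2 : HasDerivAt (fun t : ℝ => Phi (t • x)) (fderiv ℝ Phi x x) 1 := by
    have hd' : HasFDerivAt (Phi (m := m)) (fderiv ℝ Phi x) ((1 : ℝ) • x) := by
      rw [one_smul]; exact hd
    exact hd'.comp_hasDerivAt 1 h1
  rw [h0] at h2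
  simp only [ContinuousLinearMap.zero_apply, Phi_smul] at h2
  set A := ‖x 0‖ ^ 2
  set B := ‖x 1‖ ^ 4
  set C := SS x
  have hA : 0 ≤ A := by positivity
  have hB : 0 ≤ B := by positivity
  have hC : 0 ≤ C := SS_nonneg x
  have hsum : A + B + C = 1 := by
    rw [← hx, Phi_eq]
  have h3 : HasDerivAt (fun t : ℝ => t ^ 2 * A + t ^ 4 * B + t ^ 2 * C)
      ((2 : ℕ) * 1 ^ (2 - 1) * A + (4 : ℕ) * 1 ^ (4 - 1) * B +
        (2 : ℕ) * 1 ^ (2 - 1) * C) 1 :=
    (((hasDerivAt_pow 2 (1 : ℝ)).mul_const A).add ((hasDerivAt_pow 4 (1 : ℝ)).mul_const B)).add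
      ((hasDerivAt_pow 2 (1 : ℝ)).mul_const C)
  have h4 := h2.unique h3
  simp only [one_pow, mul_one] at h4
  push_cast at h4
  nlinarith

/-- the global defining function -/
noncomputable def rho (x : Fin (m + 2) → ℂ) : ℝ := Phi x - 1

lemma rho_def : IsDefiningFunction (Dom m) rho := by
  refine ⟨Phi_contDiff.sub contDiff_const, ?_, ?_⟩
  · ext x
    simp only [Dom, rho, mem_setOf_eq]
    constructor
    · intro h; linarith
    · intro h; linarith
  · intro x hx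
    unfold rho
    rw [fderiv_sub_const]
    exact fderiv_ne (frontier_Dom hx)

lemma rho_type {p : Fin (m + 2) → ℂ} (hp : p ∈ frontier (Dom m)) : dAngeloType rho p ≤ 4 := by
  have h1 := finite_type_sum_sq (FF m) FF_diff 2 (fun i =>
      ⟨i, ex m i, ?_, ?_, fun x => rfl⟩) p (frontier_Dom hp)
  · exact h1.trans (by norm_num)
  · unfold ex
    refine Fin.cases ?_ (fun i => ?_) i
    · simp
    · refine Fin.cases ?_ (fun i => ?_) i
      · simp
      · simp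
  · unfold ex
    refine Fin.cases ?_ (fun i => ?_) i
    · simp
    · refine Fin.cases ?_ (fun i => ?_) i
      · simp
      · simp

lemma Dom_finite : IsFiniteTypeDomain (Dom m) :=
  ⟨Dom_open, Dom_connected, Dom_bounded, Dom_psc, rho, rho_def,
    fun _ hp => (rho_type hp).trans_lt (by norm_num)⟩

end Pool.Agent.U500.Egg
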