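import Mathlib

set_option autoImplicit false

open Topology Filter Asymptotics Set
open scoped ENNReal NNReal ContDiff

/-!
# Squeezing function, Levi form, strong pseudoconvexity: definitions
-/

namespace Pool.Agent.U500.Sq

/-- the open Euclidean ball of radius `r` centred at `0` -/
def eball (n : ℕ) (r : ℝ) : Set (Fin n → ℂ) := {x | ∑ i, ‖x i‖ ^ 2 < r ^ 2}

/-- `F` restricts to a holomorphic embedding of the domain `D ⊆ ℂⁿ` into the open unit ball of
`ℂⁿ`: `F` is holomorphic on `D` with values in the unit ball, `F(D)` is open, and there is a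
holomorphic map on `F(D)` which is inverse to `F`. -/
def IsHolEmbedding {n : ℕ} (D : Set (Fin n → ℂ)) (F : (Fin n → ℂ) → (Fin n → ℂ)) : Prop :=
  DifferentiableOn ℂ F D ∧ (∀ x ∈ D, F x ∈ eball n 1) ∧ IsOpen (F '' D) ∧
    ∃ G : (Fin n → ℂ) → (Fin n → ℂ), DifferentiableOn ℂ G (F '' D) ∧ ∀ x ∈ D, G (F x) = x

/-- The squeezing function of `D` at `z`: the supremum of the radii `r > 0` such that some
holomorphic embedding `F` of `D` into the unit ball with `F(z) = 0` has an image which contains the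
Euclidean ball of radius `r` centred at `0`. -/
noncomputable def squeezing {n : ℕ} (D : Set (Fin n → ℂ)) (z : Fin n → ℂ) : ℝ :=
  sSup {r : ℝ | 0 < r ∧ ∃ F : (Fin n → ℂ) → (Fin n → ℂ),
    IsHolEmbedding D F ∧ F z = 0 ∧ eball n r ⊆ F '' D}

/-- The Levi form (complex Hessian) `∑ ∂²ρ/∂z_j∂z̄_k (z) v_j v̄_k`, that is, a quarter of the
Laplacian at `ζ = 0` of `ζ ↦ ρ (z + ζ v)`. -/
noncomputable def leviForm {n : ℕ} (ρ : (Fin n → ℂ) → ℝ) (z v : Fin n → ℂ) : ℝ :=
  (iteratedDeriv 2 (fun s : ℝ => ρ (z + s • v)) 0 +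
    iteratedDeriv 2 (fun s : ℝ => ρ (z + s • (Complex.I • v))) 0) / 4

/-- `r` is a `C^∞` local defining function of `Ω` near `p`: on some open neighbourhood `U` of `p`,
`r` is `C^∞` with `dr ≠ 0`, and `Ω ∩ U = {z ∈ U : r z < 0}`. -/
def IsLocalDefiningFunction {n : ℕ} (Ω : Set (Fin n → ℂ)) (p : Fin n → ℂ)
    (r : (Fin n → ℂ) → ℝ) : Prop :=
  ∃ U : Set (Fin n → ℂ), IsOpen U ∧ p ∈ U ∧ ContDiffOn ℝ ∞ r U ∧
    (∀ z ∈ U, fderiv ℝ r z ≠ 0) ∧ Ω ∩ U = {z | z ∈ U ∧ r z < 0}

/-- `v` is in the complex tangent space at `p` of the level set of `r` through `p`. -/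
def IsComplexTangent {n : ℕ} (r : (Fin n → ℂ) → ℝ) (p v : Fin n → ℂ) : Prop :=
  fderiv ℝ r p v = 0 ∧ fderiv ℝ r p (Complex.I • v) = 0

/-- `p` is a strongly (Levi) pseudoconvex boundary point of `Ω`: some local defining function has a
Levi form at `p` which is positive definite on the complex tangent space. -/
def StronglyPseudoconvexAt {n : ℕ} (Ω : Set (Fin n → ℂ)) (p : Fin n → ℂ) : Prop :=
  ∃ r, IsLocalDefiningFunction Ω p r ∧
    ∀ v : Fin n → ℂ, v ≠ 0 → IsComplexTangent r p v → 0 < leviForm r p v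

end Pool.Agent.U500.Sq
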