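import Pool.Agent.U500.Egg
import Pool.Agent.U500.SqDefs

set_option autoImplicit false

open Topology Filter Asymptotics Set
open scoped ENNReal NNReal ContDiff

/-!
# Automorphisms and Cayley maps of the egg domain
-/

namespace Pool.Agent.U500.Egg

open Pool.Agent.U500.Sq

variable {m : ℕ}

/-- square root of a complex number -/
noncomputable def sq (u : ℂ) : ℂ := Complex.exp (Complex.log u / 2)

lemma sq_sq {u : ℂ} (hu : u ≠ 0) : sq u ^ 2 = u := by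
  unfold sq
  rw [← Complex.exp_nat_mul]
  rw [show ((2 : ℕ) : ℂ) * (Complex.log u / 2) = Complex.log u by push_cast; ring]
  exact Complex.exp_log hu

lemma sq_ne_zero (u : ℂ) : sq u ≠ 0 := Complex.exp_ne_zero _

lemma norm_sq {u : ℂ} (hu : u ≠ 0) : ‖sq u‖ ^ 2 = ‖u‖ := by
  rw [← norm_pow, sq_sq hu]

lemma sq_re_pos {u : ℂ} (hu : 0 < u.re) : 0 < (sq u).re := by
  unfold sq
  rw [Complex.exp_re]
  apply mul_pos (Real.exp_pos _)
  apply Real.cos_pos_of_mem_Ioo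
  have h1 : (Complex.log u / 2).im = u.arg / 2 := by
    rw [show Complex.log u / 2 = Complex.log u * ((1 / 2 : ℝ) : ℂ) by push_cast; ring,
      Complex.mul_im, Complex.log_im]
    simp
    ring
  rw [h1]
  have h2 := Complex.abs_arg_lt_pi_div_two_iff.2 (Or.inl hu)
  rw [abs_lt] at h2
  have := Real.pi_pos
  constructor <;> linarith [h2.1, h2.2]

lemma eq_of_sq_eq {z w : ℂ} (hz : 0 < z.re) (hw : 0 < w.re) (h : z ^ 2 = w ^ 2) : z = w := by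
  have h1 : (z - w) * (z + w) = 0 := by ring_nf; rw [h]; ring
  rcases mul_eq_zero.1 h1 with h2 | h2
  · exact sub_eq_zero.1 h2
  · exfalso
    have := congrArg Complex.re h2
    simp only [Complex.add_re, Complex.zero_re] at this
    linarith

lemma sq_one : sq 1 = 1 := by simp [sq]

lemma sq_differentiableAt {u : ℂ} (hu : 0 < u.re) : DifferentiableAt ℂ sq u := by
  unfold sq
  have : u ∈ Complex.slitPlane := Or.inl hu
  exact ((Complex.differentiableAt_log this).div_const 2).cexp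

/-- `(1 - a²)^{1/4}` -/
noncomputable def cc (a : ℝ) : ℝ := Real.sqrt (Real.sqrt (1 - a ^ 2))

lemma cc_neg (a : ℝ) : cc (-a) = cc a := by unfold cc; rw [neg_sq]

lemma cc_nonneg (a : ℝ) : 0 ≤ cc a := Real.sqrt_nonneg _

lemma cc_pos {a : ℝ} (ha : |a| < 1) : 0 < cc a := by
  have : a ^ 2 < 1 := by rwa [sq_lt_one_iff_abs_lt_one]
  exact Real.sqrt_pos.2 (Real.sqrt_pos.2 (by linarith))

lemma cc_sq (a : ℝ) : cc a ^ 2 = Real.sqrt (1 - a ^ 2) := Real.sq_sqrt (Real.sqrt_nonneg _)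

lemma cc_four {a : ℝ} (ha : |a| < 1) : cc a ^ 4 = 1 - a ^ 2 := by
  have : a ^ 2 < 1 := by rwa [sq_lt_one_iff_abs_lt_one]
  rw [show cc a ^ 4 = (cc a ^ 2) ^ 2 by ring, cc_sq, Real.sq_sqrt (by linarith)]

/-- the automorphism of the egg domain which maps `(a, 0, …)` to `0` -/
noncomputable def phi (a : ℝ) (x : Fin (m + 2) → ℂ) : Fin (m + 2) → ℂ :=
  Fin.cons ((x 0 - a) / (1 - a * x 0)) (Fin.cons (cc a * x 1 / sq (1 - a * x 0))
    fun i => (cc a : ℂ) ^ 2 * x i.succ.succ / (1 - a * x 0))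

lemma phi_zero (a : ℝ) (x : Fin (m + 2) → ℂ) : phi a x 0 = (x 0 - a) / (1 - a * x 0) := rfl
lemma phi_one (a : ℝ) (x : Fin (m + 2) → ℂ) : phi a x 1 = cc a * x 1 / sq (1 - a * x 0) := rfl
lemma phi_succ (a : ℝ) (x : Fin (m + 2) → ℂ) (i : Fin m) :
    phi a x i.succ.succ = (cc a : ℂ) ^ 2 * x i.succ.succ / (1 - a * x 0) := rfl

lemma re_pos {a : ℝ} (ha : |a| < 1) {z : ℂ} (hz : ‖z‖ ≤ 1) : 0 < (1 - a * z).re := by
  have h1 : |(a * z).re| ≤ ‖(a * z : ℂ)‖ := Complex.abs_re_le_norm _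
  have h2 : ‖(a * z : ℂ)‖ < 1 := by
    rw [norm_mul, Complex.norm_real, Real.norm_eq_abs]
    calc |a| * ‖z‖ ≤ |a| * 1 := by gcongr
      _ < 1 := by linarith
  have h3 := (abs_le.1 h1).2
  simp only [Complex.sub_re, Complex.one_re]
  linarith

lemma ne_of_re_pos {z : ℂ} (hz : 0 < z.re) : z ≠ 0 := by
  rintro rfl
  simp at hz

lemma norm_id (a : ℝ) (z : ℂ) :
    ‖1 - a * z‖ ^ 2 - ‖z - a‖ ^ 2 = (1 - a ^ 2) * (1 - ‖z‖ ^ 2) := by
  simp only [← Complex.normSq_eq_norm_sq, Complex.normSq_apply, Complex.sub_re, Complex.sub_im,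
    Complex.mul_re, Complex.mul_im, Complex.ofReal_re, Complex.ofReal_im, Complex.one_re,
    Complex.one_im]
  ring

lemma SS_phi {a : ℝ} (x : Fin (m + 2) → ℂ) :
    SS (phi a x) = cc a ^ 4 * SS x / ‖1 - a * x 0‖ ^ 2 := by
  unfold SS
  rw [Finset.mul_sum, Finset.sum_div]
  refine Finset.sum_congr rfl fun i _ => ?_
  rw [phi_succ, norm_div, norm_mul, norm_pow, Complex.norm_real, Real.norm_of_nonneg (cc_nonneg a),
    div_pow, mul_pow]
  ring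

lemma Phi_phi {a : ℝ} (ha : |a| < 1) {x : Fin (m + 2) → ℂ} (hx : ‖x 0‖ ≤ 1) :
    1 - Phi (phi a x) = (1 - a ^ 2) * (1 - Phi x) / ‖1 - a * x 0‖ ^ 2 := by
  have hu := ne_of_re_pos (re_pos ha hx)
  have hu' : ‖(1 - a * x 0 : ℂ)‖ ≠ 0 := norm_ne_zero_iff.2 hu
  have h1 : ‖phi a x 1‖ ^ 4 = cc a ^ 4 * ‖x 1‖ ^ 4 / ‖1 - a * x 0‖ ^ 2 := by
    rw [phi_one, norm_div, norm_mul, Complex.norm_real, Real.norm_of_nonneg (cc_nonneg a),
      div_pow, mul_pow, show ‖sq (1 - a * x 0)‖ ^ 4 = (‖sq (1 - a * x 0)‖ ^ 2) ^ 2 by ring,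
      norm_sq hu]
  have h0 : ‖phi a x 0‖ ^ 2 = ‖x 0 - a‖ ^ 2 / ‖1 - a * x 0‖ ^ 2 := by
    rw [phi_zero, norm_div, div_pow]
  rw [Phi_eq (phi a x), Phi_eq x, h0, h1, SS_phi, cc_four ha]
  have h2 := norm_id a (x 0)
  generalize ‖(1 - a * x 0 : ℂ)‖ = N at *
  generalize ‖(x 0 - a : ℂ)‖ = M at *
  rw [eq_div_iff (pow_ne_zero 2 hu')]
  have e : (1 - (M ^ 2 / N ^ 2 + (1 - a ^ 2) * ‖x 1‖ ^ 4 / N ^ 2 + (1 - a ^ 2) * SS x / N ^ 2)) *
      N ^ 2 = N ^ 2 - (M ^ 2 + (1 - a ^ 2) * ‖x 1‖ ^ 4 + (1 - a ^ 2) * SS x) := by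
    field_simp
  rw [e]
  linear_combination h2

lemma phi_mem {a : ℝ} (ha : |a| < 1) {x : Fin (m + 2) → ℂ} (hx : x ∈ Dom m) :
    phi a x ∈ Dom m := by
  have hx' : Phi x < 1 := hx
  have h0 := norm_le_of_mem hx'.le 0
  have h1 := Phi_phi ha h0
  have hu : 0 < ‖(1 - a * x 0 : ℂ)‖ := norm_pos_iff.2 (ne_of_re_pos (re_pos ha h0))
  have ha2 : a ^ 2 < 1 := by rwa [sq_lt_one_iff_abs_lt_one]
  have h2 : 0 < (1 - a ^ 2) * (1 - Phi x) / ‖1 - a * x 0‖ ^ 2 :=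
    div_pos (mul_pos (by linarith) (by linarith)) (by positivity)
  show Phi _ < 1
  linarith

lemma phi_phi {a : ℝ} (ha : |a| < 1) {x : Fin (m + 2) → ℂ} (hx : x ∈ Dom m) :
    phi (-a) (phi a x) = x := by
  have hx' : Phi x < 1 := hx
  have h0 := norm_le_of_mem hx'.le 0
  have hur := re_pos ha h0
  have hu := ne_of_re_pos hur
  have ha2 : a ^ 2 < 1 := by rwa [sq_lt_one_iff_abs_lt_one]
  have hc := cc_pos ha
  have hc' : (cc a : ℂ) ≠ 0 := by exact_mod_cast hc.ne'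
  have hc4 : (cc a : ℂ) ^ 4 = 1 - a ^ 2 := by exact_mod_cast cc_four ha
  have hone : (1 : ℂ) - (a : ℂ) ^ 2 ≠ 0 := by
    rw [← hc4]; exact pow_ne_zero _ hc'
  have e1 : 1 - ((-a : ℝ) : ℂ) * ((x 0 - a) / (1 - a * x 0)) = (1 - a ^ 2) / (1 - a * x 0) := by
    push_cast
    field_simp
    ring
  have e2 : sq ((1 - a ^ 2) / (1 - a * x 0)) = (cc a : ℂ) ^ 2 / sq (1 - a * x 0) := by
    have hsu := sq_ne_zero (1 - a * x 0)
    apply eq_of_sq_eq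
    · apply sq_re_pos
      rw [div_eq_mul_inv]
      have : ((1 : ℂ) - (a : ℂ) ^ 2) = ((1 - a ^ 2 : ℝ) : ℂ) := by push_cast; ring
      rw [this, Complex.re_ofReal_mul, Complex.inv_re]
      apply mul_pos (by linarith)
      exact div_pos hur (Complex.normSq_pos.2 hu)
    · rw [div_eq_mul_inv, ← Complex.ofReal_pow, Complex.re_ofReal_mul, Complex.inv_re]
      apply mul_pos (by positivity)
      exact div_pos (sq_re_pos hur) (Complex.normSq_pos.2 hsu)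
    · rw [sq_sq (div_ne_zero hone hu), div_pow, sq_sq hu, ← hc4]
      ring
  funext i
  refine Fin.cases ?_ (fun i => ?_) i
  · rw [phi_zero, phi_zero, e1]
    have e3 : (x 0 - a) / (1 - a * x 0) - ((-a : ℝ) : ℂ) = (1 - a ^ 2) * x 0 / (1 - a * x 0) := by
      rw [eq_div_iff hu, sub_mul, div_mul_cancel₀ _ hu]
      push_cast
      ring
    rw [e3, div_div_div_cancel_right₀ hu, mul_div_assoc, mul_comm, div_mul_cancel₀ _ hone]
  · refine Fin.cases ?_ (fun i => ?_) i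
    · show phi (-a) (phi a x) 1 = x 1
      rw [phi_one, phi_one, phi_zero, e1, e2, cc_neg]
      have hsu := sq_ne_zero (1 - a * x 0)
      field_simp
    · rw [phi_succ, phi_succ, phi_zero, e1, cc_neg]
      field_simp
      rw [hc4]
      ring

lemma dfdiv {E : Type*} [NormedAddCommGroup E] [NormedSpace ℂ E] (f g : E → ℂ) {x : E}
    (hf : DifferentiableAt ℂ f x) (hg : DifferentiableAt ℂ g x) (h : g x ≠ 0) :
    DifferentiableAt ℂ (fun y => f y / g y) x := by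
  simp only [div_eq_mul_inv]
  exact hf.mul (hg.inv h)

lemma phi_differentiableOn {a : ℝ} (ha : |a| < 1) : DifferentiableOn ℂ (phi (m := m) a) (Dom m) := by
  intro x hx
  apply DifferentiableAt.differentiableWithinAt
  have hx' : Phi x < 1 := hx
  have h0 := norm_le_of_mem hx'.le 0
  have hur := re_pos ha h0
  have hu := ne_of_re_pos hur
  have hd : DifferentiableAt ℂ (fun x : Fin (m + 2) → ℂ => 1 - a * x 0) x := by fun_prop
  rw [differentiableAt_pi]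
  intro i
  refine Fin.cases ?_ (fun i => ?_) i
  · show DifferentiableAt ℂ (fun x : Fin (m + 2) → ℂ => (x 0 - a) / (1 - a * x 0)) x
    exact dfdiv (fun x : Fin (m + 2) → ℂ => (x 0 - a)) _ (by fun_prop) hd hu
  · refine Fin.cases ?_ (fun i => ?_) i
    · show DifferentiableAt ℂ (fun x : Fin (m + 2) → ℂ => cc a * x 1 / sq (1 - a * x 0)) x
      refine dfdiv (fun x : Fin (m + 2) → ℂ => cc a * x 1) (fun x => sq (1 - a * x 0))
        (by fun_prop) ?_ (sq_ne_zero _)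
      exact DifferentiableAt.comp (g := sq) (f := fun x : Fin (m + 2) → ℂ => 1 - a * x 0) x
        (sq_differentiableAt hur) hd
    · show DifferentiableAt ℂ
        (fun x : Fin (m + 2) → ℂ => (cc a : ℂ) ^ 2 * x i.succ.succ / (1 - a * x 0)) x
      exact dfdiv (fun x : Fin (m + 2) → ℂ => (cc a : ℂ) ^ 2 * x i.succ.succ) _ (by fun_prop) hd hu

/-! ### The Cayley map -/

lemma mem_eball {r : ℝ} {y : Fin (m + 2) → ℂ} :
    y ∈ eball (m + 2) r ↔ ‖y 0‖ ^ 2 + ‖y 1‖ ^ 2 + SS y < r ^ 2 := by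
  unfold eball SS
  rw [mem_ofPred_eq, Fin.sum_univ_succ, Fin.sum_univ_succ, ← add_assoc]
  rfl

/-- the Cayley map, `δ = s²` -/
noncomputable def cay (s : ℝ) (x : Fin (m + 2) → ℂ) : Fin (m + 2) → ℂ :=
  Fin.cons (s * x 0 / (1 - x 1 + s ^ 2)) (Fin.cons ((1 - x 1 - s ^ 2) / (1 - x 1 + s ^ 2))
    fun i => s * x i.succ.succ / (1 - x 1 + s ^ 2))

lemma cay_zero (s : ℝ) (x : Fin (m + 2) → ℂ) : cay s x 0 = s * x 0 / (1 - x 1 + s ^ 2) := rfl
lemma cay_one (s : ℝ) (x : Fin (m + 2) → ℂ) :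
    cay s x 1 = (1 - x 1 - s ^ 2) / (1 - x 1 + s ^ 2) := rfl
lemma cay_succ (s : ℝ) (x : Fin (m + 2) → ℂ) (i : Fin m) :
    cay s x i.succ.succ = s * x i.succ.succ / (1 - x 1 + s ^ 2) := rfl

/-- the inverse of the Cayley map -/
noncomputable def yac (s : ℝ) (y : Fin (m + 2) → ℂ) : Fin (m + 2) → ℂ :=
  Fin.cons (2 * s * y 0 / (1 - y 1)) (Fin.cons (1 - s ^ 2 * (1 + y 1) / (1 - y 1))
    fun i => 2 * s * y i.succ.succ / (1 - y 1))

lemma yac_zero (s : ℝ) (y : Fin (m + 2) → ℂ) : yac s y 0 = 2 * s * y 0 / (1 - y 1) := rfl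
lemma yac_one (s : ℝ) (y : Fin (m + 2) → ℂ) :
    yac s y 1 = 1 - s ^ 2 * (1 + y 1) / (1 - y 1) := rfl
lemma yac_succ (s : ℝ) (y : Fin (m + 2) → ℂ) (i : Fin m) :
    yac s y i.succ.succ = 2 * s * y i.succ.succ / (1 - y 1) := rfl

lemma tau_re_pos {s : ℝ} (hs : 0 < s) {z : ℂ} (hz : ‖z‖ ≤ 1) : 0 < (1 - z + (s : ℂ) ^ 2).re := by
  have h1 := (abs_le.1 (Complex.abs_re_le_norm z)).2
  rw [← Complex.ofReal_pow]
  simp only [Complex.add_re, Complex.sub_re, Complex.one_re, Complex.ofReal_re]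
  have : 0 < s ^ 2 := by positivity
  linarith

lemma yac_cay {s : ℝ} (hs : 0 < s) {x : Fin (m + 2) → ℂ} (hx : ‖x 1‖ ≤ 1) :
    yac s (cay s x) = x := by
  have hu := ne_of_re_pos (tau_re_pos hs hx)
  have hs' : (s : ℂ) ≠ 0 := by exact_mod_cast hs.ne'
  have e1 : 1 - (1 - x 1 - (s : ℂ) ^ 2) / (1 - x 1 + s ^ 2) = 2 * s ^ 2 / (1 - x 1 + s ^ 2) := by
    field_simp
    ring
  have e2 : 1 + (1 - x 1 - (s : ℂ) ^ 2) / (1 - x 1 + s ^ 2) =
      2 * (1 - x 1) / (1 - x 1 + s ^ 2) := by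
    field_simp
    ring
  funext i
  refine Fin.cases ?_ (fun i => ?_) i
  · rw [yac_zero, cay_zero, cay_one, e1]
    field_simp
  · refine Fin.cases ?_ (fun i => ?_) i
    · show yac s (cay s x) 1 = x 1
      rw [yac_one, cay_one, e1, e2]
      field_simp
      ring
    · rw [yac_succ, cay_succ, cay_one, e1]
      field_simp

lemma cay_yac {s : ℝ} (hs : 0 < s) {y : Fin (m + 2) → ℂ} (hy : y 1 ≠ 1) :
    cay s (yac s y) = y := by
  have hs' : (s : ℂ) ≠ 0 := by exact_mod_cast hs.ne'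
  have hy' : 1 - y 1 ≠ 0 := sub_ne_zero.2 (Ne.symm hy)
  have e1 : 1 - (1 - (s : ℂ) ^ 2 * (1 + y 1) / (1 - y 1)) + s ^ 2 = 2 * s ^ 2 / (1 - y 1) := by
    field_simp
    ring
  have e2 : 1 - (1 - (s : ℂ) ^ 2 * (1 + y 1) / (1 - y 1)) - s ^ 2 =
      2 * s ^ 2 * y 1 / (1 - y 1) := by
    field_simp
    ring
  funext i
  refine Fin.cases ?_ (fun i => ?_) i
  · rw [cay_zero, yac_zero, yac_one, e1]
    field_simp
  · refine Fin.cases ?_ (fun i => ?_) i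
    · show cay s (yac s y) 1 = y 1
      rw [cay_one, yac_one, e1, e2]
      field_simp
    · rw [cay_succ, yac_succ, yac_one, e1]
      field_simp

lemma four_bound {z : ℂ} (hz : ‖z‖ ≤ 1) : 1 - ‖z‖ ^ 4 ≤ 4 * (1 - z.re) := by
  have h1 := (abs_le.1 (Complex.abs_re_le_norm z)).2
  have h0 := norm_nonneg z
  have h2 : 1 - ‖z‖ ^ 4 ≤ 4 * (1 - ‖z‖) := by
    nlinarith [mul_nonneg (sub_nonneg.2 hz) (sub_nonneg.2 hz), pow_nonneg h0 2, pow_nonneg h0 3,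
      mul_nonneg h0 (sub_nonneg.2 hz), sq_nonneg (‖z‖ - 1), sq_nonneg (‖z‖ ^ 2 - 1)]
  linarith

lemma SS_cay (s : ℝ) (x : Fin (m + 2) → ℂ) :
    SS (cay s x) = s ^ 2 * SS x / ‖1 - x 1 + s ^ 2‖ ^ 2 := by
  unfold SS
  rw [Finset.mul_sum, Finset.sum_div]
  refine Finset.sum_congr rfl fun i _ => ?_
  rw [cay_succ, norm_div, norm_mul, Complex.norm_real, div_pow, mul_pow, Real.norm_eq_abs, sq_abs]

lemma cay_mem {s : ℝ} (hs : 0 < s) {x : Fin (m + 2) → ℂ} (hx : x ∈ Dom m) :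
    cay s x ∈ eball (m + 2) 1 := by
  have hx' : Phi x < 1 := hx
  have h1 := norm_le_of_mem hx'.le 1
  have hu := ne_of_re_pos (tau_re_pos hs h1)
  have hu' : 0 < ‖(1 - x 1 + (s : ℂ) ^ 2)‖ := norm_pos_iff.2 hu
  rw [mem_eball, SS_cay, cay_zero, cay_one, norm_div, norm_div, norm_mul, Complex.norm_real,
    div_pow, div_pow, mul_pow, Real.norm_eq_abs, sq_abs, ← add_div, ← add_div,
    div_lt_iff₀ (by positivity)]
  rw [Phi_eq] at hx'
  have h4 := four_bound h1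
  have h5 : ‖(1 - x 1 + (s : ℂ) ^ 2)‖ ^ 2 - ‖(1 - x 1 - (s : ℂ) ^ 2)‖ ^ 2 =
      4 * s ^ 2 * (1 - (x 1).re) := by
    rw [← Complex.ofReal_pow]
    simp only [← Complex.normSq_eq_norm_sq, Complex.normSq_apply, Complex.sub_re, Complex.sub_im,
      Complex.add_re, Complex.add_im, Complex.ofReal_re, Complex.ofReal_im, Complex.one_re,
      Complex.one_im]
    ring
  have h6 : ‖x 0‖ ^ 2 + SS x < 4 * (1 - (x 1).re) := by linarith
  have h7 : s ^ 2 * (‖x 0‖ ^ 2 + SS x) < s ^ 2 * (4 * (1 - (x 1).re)) := by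
    gcongr
  linarith

lemma SS_yac (s : ℝ) (y : Fin (m + 2) → ℂ) :
    SS (yac s y) = 4 * s ^ 2 * SS y / ‖1 - y 1‖ ^ 2 := by
  unfold SS
  rw [Finset.mul_sum, Finset.sum_div]
  refine Finset.sum_congr rfl fun i _ => ?_
  rw [yac_succ, norm_div, norm_mul, norm_mul, Complex.norm_real, div_pow, mul_pow, mul_pow,
    Real.norm_eq_abs, sq_abs]
  norm_num

lemma yac_mem {s r : ℝ} (hs : 0 < s) (hr : 0 < r) (hr1 : r < 1)
    (hsr : 28 * s ^ 2 ≤ (1 - r) ^ 3) {y : Fin (m + 2) → ℂ} (hy : y ∈ eball (m + 2) r) :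
    yac s y ∈ Dom m := by
  rw [mem_eball] at hy
  have hS := SS_nonneg y
  have hy1 : ‖y 1‖ < r := by
    have : ‖y 1‖ ^ 2 < r ^ 2 := by nlinarith [sq_nonneg ‖y 0‖]
    exact lt_of_pow_lt_pow_left₀ 2 hr.le this
  have hd : 1 - r < ‖1 - y 1‖ := by
    have := norm_sub_norm_le (1 : ℂ) (y 1)
    rw [norm_one] at this
    linarith
  have hd0 : 0 < ‖1 - y 1‖ := by linarith
  have hd2 : ‖1 - y 1‖ ≤ 2 := by
    have := norm_sub_le (1 : ℂ) (y 1)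
    rw [norm_one] at this
    linarith
  have hne : 1 - y 1 ≠ 0 := norm_pos_iff.1 hd0
  set τ : ℂ := (s : ℂ) ^ 2 * (1 + y 1) / (1 - y 1) with hτ
  have hτre : τ.re = s ^ 2 * (1 - ‖y 1‖ ^ 2) / ‖1 - y 1‖ ^ 2 := by
    rw [hτ, ← Complex.ofReal_pow, mul_div_assoc, Complex.re_ofReal_mul, Complex.div_re,
      ← Complex.normSq_eq_norm_sq, ← Complex.normSq_eq_norm_sq, ← add_div, mul_div_assoc]
    congr 2
    simp only [Complex.normSq_apply, Complex.sub_re, Complex.sub_im,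
      Complex.add_re, Complex.add_im, Complex.one_re, Complex.one_im]
    ring
  have hτn : ‖τ‖ ≤ 2 * s ^ 2 / (1 - r) := by
    rw [hτ, norm_div, norm_mul, norm_pow, Complex.norm_real, Real.norm_eq_abs, sq_abs]
    have h1 : ‖1 + y 1‖ ≤ 2 := by
      have := norm_add_le (1 : ℂ) (y 1)
      rw [norm_one] at this
      linarith
    calc s ^ 2 * ‖1 + y 1‖ / ‖1 - y 1‖ ≤ s ^ 2 * 2 / (1 - r) := by gcongr
      _ = _ := by ring
  have h1r : 0 < 1 - r := by linarith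
  have hτn2 : ‖τ‖ ^ 2 ≤ 4 * (s ^ 2) ^ 2 / (1 - r) ^ 2 := by
    calc ‖τ‖ ^ 2 ≤ (2 * s ^ 2 / (1 - r)) ^ 2 := by gcongr
      _ = _ := by rw [div_pow]; ring
  have hs2 : 0 < s ^ 2 := by positivity
  have hτ1 : ‖τ‖ ≤ 1 := by
    refine hτn.trans ?_
    rw [div_le_one h1r]
    have : (1 - r) ^ 3 ≤ (1 - r) := by
      have : (1 - r) ^ 3 ≤ (1 - r) ^ 1 := pow_le_pow_of_le_one h1r.le (by linarith) (by norm_num)
      simpa using this
    linarith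
  have hτpos : 0 ≤ τ.re := by
    rw [hτre]
    apply div_nonneg (mul_nonneg hs2.le _) (by positivity)
    nlinarith [norm_nonneg (y 1)]
  -- the fourth power
  have h4 : ‖1 - τ‖ ^ 4 ≤ 1 - 4 * τ.re + 7 * ‖τ‖ ^ 2 := by
    have e : ‖1 - τ‖ ^ 2 = 1 - 2 * τ.re + ‖τ‖ ^ 2 := by
      simp only [← Complex.normSq_eq_norm_sq, Complex.normSq_apply, Complex.sub_re, Complex.sub_im,
        Complex.one_re, Complex.one_im]
      ring
    have e2 : ‖1 - τ‖ ^ 4 = (1 - 2 * τ.re + ‖τ‖ ^ 2) ^ 2 := by rw [← e]; ring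
    rw [e2]
    have h5 : τ.re ^ 2 ≤ ‖τ‖ ^ 2 := by
      rw [← sq_abs τ.re]
      have := Complex.abs_re_le_norm τ
      gcongr
    have h6 : ‖τ‖ ^ 2 ≤ 1 := by
      have := norm_nonneg τ
      nlinarith
    have h7 : 0 ≤ ‖τ‖ ^ 2 := by positivity
    nlinarith [mul_nonneg hτpos h7, mul_nonneg h7 (sub_nonneg.2 h6)]
  have h0 : ‖yac s y 0‖ ^ 2 = 4 * s ^ 2 * ‖y 0‖ ^ 2 / ‖1 - y 1‖ ^ 2 := by
    rw [yac_zero, norm_div, norm_mul, norm_mul, Complex.norm_real, div_pow, mul_pow, mul_pow,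
      Real.norm_eq_abs, sq_abs]
    norm_num
  show Phi _ < 1
  rw [Phi_eq, h0, SS_yac, yac_one]
  have h8 : 4 * s ^ 2 * ‖y 0‖ ^ 2 / ‖1 - y 1‖ ^ 2 + 4 * s ^ 2 * SS y / ‖1 - y 1‖ ^ 2 =
      4 * s ^ 2 * (‖y 0‖ ^ 2 + SS y) / ‖1 - y 1‖ ^ 2 := by ring
  have h9 : 4 * s ^ 2 * (‖y 0‖ ^ 2 + SS y) / ‖1 - y 1‖ ^ 2 ≤
      4 * τ.re - s ^ 2 * (1 - r ^ 2) := by
    have h10 : 4 * τ.re - 4 * s ^ 2 * (‖y 0‖ ^ 2 + SS y) / ‖1 - y 1‖ ^ 2 =
        4 * s ^ 2 * (1 - (‖y 0‖ ^ 2 + ‖y 1‖ ^ 2 + SS y)) / ‖1 - y 1‖ ^ 2 := by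
      rw [hτre]; ring
    have h11 : s ^ 2 * (1 - r ^ 2) ≤
        4 * s ^ 2 * (1 - (‖y 0‖ ^ 2 + ‖y 1‖ ^ 2 + SS y)) / ‖1 - y 1‖ ^ 2 := by
      rw [le_div_iff₀ (by positivity)]
      have h12 : ‖1 - y 1‖ ^ 2 ≤ 4 := by nlinarith
      have h13 : 0 ≤ 1 - r ^ 2 := by nlinarith
      calc s ^ 2 * (1 - r ^ 2) * ‖1 - y 1‖ ^ 2 ≤ s ^ 2 * (1 - r ^ 2) * 4 := by gcongr
        _ ≤ 4 * s ^ 2 * (1 - (‖y 0‖ ^ 2 + ‖y 1‖ ^ 2 + SS y)) := by
          nlinarith [mul_pos hs2 (sub_pos.2 hy)]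
    linarith
  have h14 : 7 * ‖τ‖ ^ 2 < s ^ 2 * (1 - r ^ 2) := by
    have h15 : 7 * ‖τ‖ ^ 2 ≤ s ^ 2 * (28 * s ^ 2) / (1 - r) ^ 2 := by
      calc 7 * ‖τ‖ ^ 2 ≤ 7 * (4 * (s ^ 2) ^ 2 / (1 - r) ^ 2) := by gcongr
        _ = _ := by ring
    have h16 : s ^ 2 * (28 * s ^ 2) / (1 - r) ^ 2 ≤ s ^ 2 * (1 - r) := by
      rw [div_le_iff₀ (by positivity)]
      calc s ^ 2 * (28 * s ^ 2) ≤ s ^ 2 * (1 - r) ^ 3 := by gcongr
        _ = _ := by ring
    have h17 : s ^ 2 * (1 - r) < s ^ 2 * (1 - r ^ 2) := by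
      gcongr
      nlinarith
    linarith
  linarith

lemma cay_differentiableAt {s : ℝ} {x : Fin (m + 2) → ℂ} (hx : 1 - x 1 + (s : ℂ) ^ 2 ≠ 0) :
    DifferentiableAt ℂ (cay (m := m) s) x := by
  have hd : DifferentiableAt ℂ (fun x : Fin (m + 2) → ℂ => 1 - x 1 + (s : ℂ) ^ 2) x := by fun_prop
  rw [differentiableAt_pi]
  intro i
  refine Fin.cases ?_ (fun i => ?_) i
  · exact dfdiv (fun x : Fin (m + 2) → ℂ => s * x 0) _ (by fun_prop) hd hx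
  · refine Fin.cases ?_ (fun i => ?_) i
    · exact dfdiv (fun x : Fin (m + 2) → ℂ => (1 - x 1 - (s : ℂ) ^ 2)) _ (by fun_prop) hd hx
    · exact dfdiv (fun x : Fin (m + 2) → ℂ => s * x i.succ.succ) _ (by fun_prop) hd hx

lemma yac_differentiableAt {s : ℝ} {y : Fin (m + 2) → ℂ} (hy : 1 - y 1 ≠ 0) :
    DifferentiableAt ℂ (yac (m := m) s) y := by
  have hd : DifferentiableAt ℂ (fun x : Fin (m + 2) → ℂ => 1 - x 1) y := by fun_prop
  rw [differentiableAt_pi]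
  intro i
  refine Fin.cases ?_ (fun i => ?_) i
  · exact dfdiv (fun x : Fin (m + 2) → ℂ => 2 * s * x 0) _ (by fun_prop) hd hy
  · refine Fin.cases ?_ (fun i => ?_) i
    · have := (dfdiv (fun x : Fin (m + 2) → ℂ => (s : ℂ) ^ 2 * (1 + x 1)) _ (by fun_prop) hd hy)
      exact this.const_sub 1
    · exact dfdiv (fun x : Fin (m + 2) → ℂ => 2 * s * x i.succ.succ) _ (by fun_prop) hd hy

lemma image_cay {s : ℝ} (hs : 0 < s) :
    cay s '' (Dom m) = {y | y 1 ≠ 1 ∧ yac s y ∈ Dom m} := by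
  ext y
  constructor
  · rintro ⟨x, hx, rfl⟩
    have hx' : Phi x < 1 := hx
    have h1 := norm_le_of_mem hx'.le 1
    have hu := ne_of_re_pos (tau_re_pos hs h1)
    have hs' : (s : ℂ) ≠ 0 := by exact_mod_cast hs.ne'
    refine ⟨?_, by rw [yac_cay hs h1]; exact hx⟩
    intro h
    rw [cay_one, div_eq_one_iff_eq hu] at h
    apply hs'
    have : (s : ℂ) ^ 2 = 0 := by linear_combination (-1 / 2) * h
    exact pow_eq_zero_iff (two_ne_zero) |>.1 this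
  · rintro ⟨h1, h2⟩
    exact ⟨yac s y, h2, cay_yac hs h1⟩

lemma image_cay_open {s : ℝ} (hs : 0 < s) : IsOpen (cay s '' (Dom m)) := by
  rw [image_cay hs]
  have ho : IsOpen {y : Fin (m + 2) → ℂ | y 1 ≠ 1} :=
    isOpen_ne_fun (continuous_apply 1) continuous_const
  have hc : ContinuousOn (yac (m := m) s) {y : Fin (m + 2) → ℂ | y 1 ≠ 1} := fun y hy =>
    (yac_differentiableAt (sub_ne_zero.2 (Ne.symm hy))).continuousAt.continuousWithinAt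
  exact hc.isOpen_inter_preimage ho Dom_open

end Pool.Agent.U500.Egg
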