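import Pool.Agent.U500.EggAut

set_option autoImplicit false

open Topology Filter Asymptotics Set
open scoped ENNReal NNReal ContDiff

/-!
# The squeezing function of the egg domain along a tangential sequence
-/

namespace Pool.Agent.U500.Egg

open Pool.Agent.R233 Pool.Agent.U500.Sq

variable {m : ℕ}

/-! ### The Levi form of the egg domain -/

/-- real scalar product -/
noncomputable def sc (z v : ℂ) : ℝ := z.re * v.re + z.im * v.im

lemma norm_add_smul (z v : ℂ) (s : ℝ) :
    ‖z + s • v‖ ^ 2 = ‖z‖ ^ 2 + 2 * sc z v * s + ‖v‖ ^ 2 * s ^ 2 := by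
  unfold sc
  simp only [← Complex.normSq_eq_norm_sq, Complex.normSq_apply, Complex.add_re, Complex.add_im,
    Complex.real_smul, Complex.mul_re, Complex.mul_im, Complex.ofReal_re, Complex.ofReal_im]
  ring

/-- sum of the scalar products over the remaining coordinates -/
noncomputable def SC (z v : Fin (m + 2) → ℂ) : ℝ := ∑ i : Fin m, sc (z i.succ.succ) (v i.succ.succ)

lemma SS_add (z v : Fin (m + 2) → ℂ) (s : ℝ) :
    SS (z + s • v) = SS z + 2 * SC z v * s + SS v * s ^ 2 := by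
  unfold SS SC
  rw [Finset.mul_sum, Finset.sum_mul, Finset.sum_mul, ← Finset.sum_add_distrib,
    ← Finset.sum_add_distrib]
  exact Finset.sum_congr rfl fun i _ => norm_add_smul _ _ _

lemma rho_line (z v : Fin (m + 2) → ℂ) (s : ℝ) :
    rho (z + s • v) = (Phi z - 1) +
      (2 * sc (z 0) (v 0) + 4 * ‖z 1‖ ^ 2 * sc (z 1) (v 1) + 2 * SC z v) * s +
      (‖v 0‖ ^ 2 + (4 * sc (z 1) (v 1) ^ 2 + 2 * ‖z 1‖ ^ 2 * ‖v 1‖ ^ 2) + SS v) * s ^ 2 +
      4 * sc (z 1) (v 1) * ‖v 1‖ ^ 2 * s ^ 3 + ‖v 1‖ ^ 4 * s ^ 4 := by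
  unfold rho
  rw [Phi_eq, Phi_eq, SS_add]
  have h0 : ‖(z + s • v) 0‖ ^ 2 = _ := norm_add_smul (z 0) (v 0) s
  have h1 : ‖(z + s • v) 1‖ ^ 2 = _ := norm_add_smul (z 1) (v 1) s
  rw [show ‖(z + s • v) 1‖ ^ 4 = (‖(z + s • v) 1‖ ^ 2) ^ 2 by ring, h0, h1]
  ring

lemma poly_deriv (c0 c1 c2 c3 c4 s : ℝ) :
    HasDerivAt (fun s : ℝ => c0 + c1 * s + c2 * s ^ 2 + c3 * s ^ 3 + c4 * s ^ 4)
      (c1 + 2 * c2 * s + 3 * c3 * s ^ 2 + 4 * c4 * s ^ 3) s := by
  have h1 := (hasDerivAt_id s).const_mul c1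
  have h2 := (hasDerivAt_pow 2 s).const_mul c2
  have h3 := (hasDerivAt_pow 3 s).const_mul c3
  have h4 := (hasDerivAt_pow 4 s).const_mul c4
  have h := (((h1.const_add c0).add h2).add h3).add h4
  refine h.congr_deriv ?_
  push_cast
  ring

lemma poly_two (c0 c1 c2 c3 c4 : ℝ) :
    iteratedDeriv 2 (fun s : ℝ => c0 + c1 * s + c2 * s ^ 2 + c3 * s ^ 3 + c4 * s ^ 4) 0 =
      2 * c2 := by
  rw [iteratedDeriv_succ, iteratedDeriv_one]
  have h : deriv (fun s : ℝ => c0 + c1 * s + c2 * s ^ 2 + c3 * s ^ 3 + c4 * s ^ 4) =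
      fun s => c1 + 2 * c2 * s + 3 * c3 * s ^ 2 + 4 * c4 * s ^ 3 + 0 * s ^ 4 := by
    funext s
    rw [(poly_deriv c0 c1 c2 c3 c4 s).deriv]
    ring
  rw [h, (poly_deriv c1 (2 * c2) (3 * c3) (4 * c4) 0 0).deriv]
  ring

lemma leviForm_rho (z v : Fin (m + 2) → ℂ) :
    leviForm rho z v = ‖v 0‖ ^ 2 + 4 * ‖z 1‖ ^ 2 * ‖v 1‖ ^ 2 + SS v := by
  unfold leviForm
  simp only [rho_line, poly_two]
  have h0 : ‖(Complex.I • v) 0‖ = ‖v 0‖ := by simp
  have h1 : ‖(Complex.I • v) 1‖ = ‖v 1‖ := by simp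
  have h2 : SS (Complex.I • v) = SS v := by simp [SS]
  have h3 : sc (z 1) (v 1) ^ 2 + sc (z 1) ((Complex.I • v) 1) ^ 2 = ‖z 1‖ ^ 2 * ‖v 1‖ ^ 2 := by
    unfold sc
    simp only [← Complex.normSq_eq_norm_sq, Complex.normSq_apply, Pi.smul_apply, smul_eq_mul,
      Complex.mul_re, Complex.mul_im, Complex.I_re, Complex.I_im]
    ring
  rw [h0, h1, h2]
  linear_combination 2 * h3

lemma fderiv_rho (z v : Fin (m + 2) → ℂ) :
    fderiv ℝ rho z v = 2 * sc (z 0) (v 0) + 4 * ‖z 1‖ ^ 2 * sc (z 1) (v 1) + 2 * SC z v := by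
  have hd : HasFDerivAt (rho (m := m)) (fderiv ℝ rho z) z :=
    (rho_def.1.differentiable (by simp) z).hasFDerivAt
  have h1 : HasDerivAt (fun t : ℝ => z + t • v) v 0 := by
    simpa using ((hasDerivAt_id (0 : ℝ)).smul_const v).const_add z
  have hd' : HasFDerivAt (rho (m := m)) (fderiv ℝ rho z) (z + (0 : ℝ) • v) := by
    rw [zero_smul, add_zero]; exact hd
  have h2 : HasDerivAt (fun t : ℝ => rho (z + t • v)) (fderiv ℝ rho z v) 0 :=
    HasFDerivAt.comp_hasDerivAt (f := fun t : ℝ => z + t • v) 0 hd' h1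
  simp only [rho_line] at h2
  rw [h2.unique (poly_deriv _ _ _ _ _ 0)]
  ring

/-! ### The boundary point -/

/-- the boundary point `(1, 0, …, 0)` -/
def pt (m : ℕ) : Fin (m + 2) → ℂ := Fin.cons 1 0

/-- the point `(0, t, 0, …, 0)` -/
noncomputable def base (m : ℕ) (t : ℝ) : Fin (m + 2) → ℂ := Fin.cons 0 (Fin.cons (t : ℂ) 0)

lemma pt_zero : pt m 0 = 1 := rfl
lemma pt_succ (i : Fin (m + 1)) : pt m i.succ = 0 := rfl
lemma pt_one : pt m 1 = 0 := rfl
lemma base_zero (t : ℝ) : base m t 0 = 0 := rfl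
lemma base_one (t : ℝ) : base m t 1 = t := rfl
lemma base_succ (t : ℝ) (i : Fin m) : base m t i.succ.succ = 0 := rfl
lemma SS_pt : SS (pt m) = 0 := by simp [SS, pt_succ]
lemma SS_base (t : ℝ) : SS (base m t) = 0 := by simp [SS, base_succ]

lemma Phi_pt : Phi (pt m) = 1 := by rw [Phi_eq, SS_pt, pt_zero, pt_one]; simp

lemma base_mem {t : ℝ} (h0 : 0 < t) (h1 : t < 1) : base m t ∈ Dom m := by
  show Phi _ < 1
  rw [Phi_eq, SS_base, base_zero, base_one, Complex.norm_real, Real.norm_of_nonneg h0.le]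
  have : t ^ 4 < 1 := pow_lt_one₀ h0.le h1 (by norm_num)
  simpa using this

lemma not_mem_pt : pt m ∉ Dom m := by
  intro h
  have h' : Phi (pt m) < 1 := h
  rw [Phi_pt] at h'
  exact lt_irrefl _ h'

lemma smul_pt_mem {t : ℝ} (h0 : 0 ≤ t) (h1 : t < 1) : t • pt m ∈ Dom m := by
  show Phi _ < 1
  rw [Phi_smul, SS_pt, pt_zero, pt_one]
  simp only [norm_one, norm_zero, one_pow, mul_one, ne_eq, OfNat.ofNat_ne_zero, not_false_eq_true,
    zero_pow, mul_zero, add_zero]
  nlinarith

lemma pt_frontier : pt m ∈ frontier (Dom m) := by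
  rw [frontier, Dom_open.interior_eq]
  refine ⟨?_, not_mem_pt⟩
  rw [mem_closure_iff_seq_limit]
  refine ⟨fun k : ℕ => (1 - 1 / ((k : ℝ) + 1)) • pt m, fun k => ?_, ?_⟩
  · apply smul_pt_mem
    · have : 1 / ((k : ℝ) + 1) ≤ 1 := by
        rw [div_le_one (by positivity)]
        have : (0 : ℝ) ≤ k := by positivity
        linarith
      linarith
    · have : 0 < 1 / ((k : ℝ) + 1) := by positivity
      linarith
  · have h1 : Tendsto (fun k : ℕ => (1 : ℝ) - 1 / ((k : ℝ) + 1)) atTop (𝓝 (1 - 0)) :=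
      tendsto_const_nhds.sub tendsto_one_div_add_atTop_nhds_zero_nat
    have h2 := h1.smul_const (pt m)
    simpa using h2

/-- the degenerate direction -/
def ev (m : ℕ) : Fin (m + 2) → ℂ := Fin.cons 0 (Fin.cons 1 0)

lemma ev_zero : ev m 0 = 0 := rfl
lemma ev_one : ev m 1 = 1 := rfl
lemma ev_succ (i : Fin m) : ev m i.succ.succ = 0 := rfl

lemma ev_ne : ev m ≠ 0 := by
  intro h
  have := congrFun h 1
  rw [ev_one] at this
  simp at this

/-- unit vectors in the degenerate direction -/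
structure IsDeg (w : Fin (m + 2) → ℂ) : Prop where
  z : w 0 = 0
  o : ‖w 1‖ = 1
  s : ∀ i : Fin m, w i.succ.succ = 0

lemma deg_ev : IsDeg (ev m) := ⟨ev_zero, by rw [ev_one, norm_one], ev_succ⟩

lemma deg_iev : IsDeg (Complex.I • ev m) :=
  ⟨by simp [ev_zero], by simp [ev_one], fun i => by simp [ev_succ]⟩

lemma Phi_deg {w : Fin (m + 2) → ℂ} (hw : IsDeg w) (s t : ℝ) :
    Phi (pt m + s • w - t • pt m) = (1 - t) ^ 2 + s ^ 4 := by
  rw [Phi_eq]
  have h0 : (pt m + s • w - t • pt m) 0 = ((1 - t : ℝ) : ℂ) := by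
    simp [hw.z, pt_zero]
  have h1 : (pt m + s • w - t • pt m) 1 = s • w 1 := by
    simp [pt_one]
  have h2 : SS (pt m + s • w - t • pt m) = 0 := by
    unfold SS
    apply Finset.sum_eq_zero
    intro i _
    simp [hw.s, pt_succ]
  rw [h0, h1, h2, norm_smul, hw.o, Complex.norm_real, Real.norm_eq_abs, Real.norm_eq_abs, sq_abs,
    mul_one, show |s| ^ 4 = (|s| ^ 2) ^ 2 by ring, sq_abs]
  ring

/-- a function of one variable which vanishes to first order at `0`, is `≤ K s⁴` and `C²` has second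
derivative `≤ 0` -/
lemma second_le {k : ℝ → ℝ} (hk : ContDiffAt ℝ 2 k 0) (h0 : k 0 = 0) (h1 : deriv k 0 = 0)
    {K : ℝ} (hK : ∀ᶠ s in 𝓝 (0 : ℝ), k s ≤ K * s ^ 4) : iteratedDeriv 2 k 0 ≤ 0 := by
  rw [iteratedDeriv_succ, iteratedDeriv_one]
  by_contra hcon
  push Not at hcon
  set κ := deriv (deriv k) 0 with hκ
  have hdk : ∀ᶠ s in 𝓝 (0 : ℝ), DifferentiableAt ℝ k s := by
    have h := hk.eventually (by simp)
    filter_upwards [h] with s hs
    exact hs.differentiableAt (by simp)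
  have hddk : DifferentiableAt ℝ (deriv k) 0 := by
    by_contra h
    rw [hκ, deriv_zero_of_not_differentiableAt h] at hcon
    exact lt_irrefl _ hcon
  set h : ℝ → ℝ := fun s => k s - κ / 4 * s ^ 2 with hh
  have e1 : deriv h =ᶠ[𝓝 0] fun s => deriv k s - κ / 2 * s := by
    filter_upwards [hdk] with s hs
    have h3 : HasDerivAt (fun s => k s - κ / 4 * s ^ 2) _ s :=
      hs.hasDerivAt.sub ((hasDerivAt_pow 2 s).const_mul (κ / 4))
    rw [hh, h3.deriv]
    push_cast
    ring
  have e2 : deriv (deriv h) 0 = κ / 2 := by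
    rw [e1.deriv_eq]
    have := hddk.hasDerivAt.sub ((hasDerivAt_id (0 : ℝ)).const_mul (κ / 2))
    have h3 : HasDerivAt (fun s => deriv k s - κ / 2 * s) (κ - κ / 2 * 1) 0 := this
    rw [h3.deriv]
    ring
  have e3 : deriv h 0 = 0 := by
    rw [e1.eq_of_nhds, h1]; ring
  have e4 : ContinuousAt h 0 := hk.continuousAt.sub (by fun_prop)
  have hmin : IsLocalMin h 0 :=
    isLocalMin_of_deriv_deriv_pos (by rw [e2]; linarith) e3 e4
  have h5 : ∀ᶠ s in 𝓝 (0 : ℝ), κ / 4 * s ^ 2 ≤ K * s ^ 4 := by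
    filter_upwards [hmin, hK] with s hs hs2
    have : h 0 = 0 := by simp [hh, h0]
    rw [this] at hs
    have : h s = k s - κ / 4 * s ^ 2 := rfl
    linarith
  have h6 : Tendsto (fun s : ℝ => K * s ^ 2) (𝓝[≠] 0) (𝓝 0) := by
    have : Tendsto (fun s : ℝ => K * s ^ 2) (𝓝 0) (𝓝 (K * 0 ^ 2)) :=
      Continuous.tendsto (by fun_prop) 0
    simp only [ne_eq, OfNat.ofNat_ne_zero, not_false_eq_true, zero_pow, mul_zero] at this
    exact this.mono_left nhdsWithin_le_nhds
  have h7 : ∀ᶠ s : ℝ in 𝓝[≠] 0, K * s ^ 2 < κ / 4 :=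
    h6.eventually (gt_mem_nhds (by linarith))
  have h8 : ∀ᶠ s : ℝ in 𝓝[≠] 0, s ≠ 0 := self_mem_nhdsWithin
  obtain ⟨s, hs1, hs2, hs3⟩ := ((h5.filter_mono nhdsWithin_le_nhds).and (h7.and h8)).exists
  have hpos : 0 < s ^ 2 := by positivity
  have : K * s ^ 4 < κ / 4 * s ^ 2 := by
    calc K * s ^ 4 = (K * s ^ 2) * s ^ 2 := by ring
      _ < κ / 4 * s ^ 2 := by gcongr
  linarith

lemma deg_second {r : (Fin (m + 2) → ℂ) → ℝ} (hr : IsLocalDefiningFunction (Dom m) (pt m) r)
    {w : Fin (m + 2) → ℂ} (hw : IsDeg w) :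
    fderiv ℝ r (pt m) w = 0 ∧ iteratedDeriv 2 (fun s : ℝ => r (pt m + s • w)) 0 ≤ 0 := by
  obtain ⟨U, hU, hpU, hrU, hdr, hUD⟩ := hr
  have hUn : U ∈ 𝓝 (pt m) := hU.mem_nhds hpU
  have hcd : ContDiffAt ℝ ∞ r (pt m) := hrU.contDiffAt hUn
  have hin : ∀ x ∈ U, x ∈ Dom m → r x < 0 := by
    intro x hx hxD
    have : x ∈ Dom m ∩ U := ⟨hxD, hx⟩
    rw [hUD] at this
    exact this.2
  have hout : ∀ x ∈ U, x ∉ Dom m → 0 ≤ r x := by
    intro x hx hxD
    by_contra hcon
    push Not at hcon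
    have : x ∈ {z | z ∈ U ∧ r z < 0} := ⟨hx, hcon⟩
    rw [← hUD] at this
    exact hxD this.1
  -- continuity of the two curves
  have c1 : Continuous (fun s : ℝ => pt m + s • w) := by fun_prop
  have c2 : Continuous (fun s : ℝ => pt m + s • w - (s ^ 4) • pt m) := by fun_prop
  have c1' : Tendsto (fun s : ℝ => pt m + s • w) (𝓝 0) (𝓝 (pt m)) := by
    have := c1.tendsto 0
    simpa using this
  have c2' : Tendsto (fun s : ℝ => pt m + s • w - (s ^ 4) • pt m) (𝓝 0) (𝓝 (pt m)) := by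
    have := c2.tendsto 0
    simpa using this
  have hr0 : r (pt m) = 0 := by
    apply le_antisymm _ (hout _ hpU not_mem_pt)
    have hne : ∀ᶠ s in 𝓝[<] (1 : ℝ), r (s • pt m) < 0 := by
      have t1 : Tendsto (fun s : ℝ => s • pt m) (𝓝[<] 1) (𝓝 (pt m)) := by
        have : Tendsto (fun s : ℝ => s • pt m) (𝓝 1) (𝓝 ((1 : ℝ) • pt m)) :=
          Continuous.tendsto (by fun_prop) 1
        rw [one_smul] at this
        exact this.mono_left nhdsWithin_le_nhds
      have t2 : ∀ᶠ s : ℝ in 𝓝[<] 1, s < 1 := self_mem_nhdsWithin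
      have t3 : ∀ᶠ s : ℝ in 𝓝[<] 1, 0 < s := (lt_mem_nhds one_pos).filter_mono nhdsWithin_le_nhds
      filter_upwards [t1.eventually hUn, t2, t3] with s hs1 hs2 hs3
      exact hin _ hs1 (smul_pt_mem hs3.le hs2)
    have t1 : Tendsto (fun s : ℝ => r (s • pt m)) (𝓝[<] 1) (𝓝 (r (pt m))) := by
      have : Tendsto (fun s : ℝ => s • pt m) (𝓝 1) (𝓝 ((1 : ℝ) • pt m)) :=
        Continuous.tendsto (by fun_prop) 1
      rw [one_smul] at this
      exact hcd.continuousAt.tendsto.comp (this.mono_left nhdsWithin_le_nhds)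
    exact le_of_tendsto t1 (hne.mono fun s hs => hs.le)
  set k : ℝ → ℝ := fun s => r (pt m + s • w) with hk
  have hk0 : k 0 = 0 := by simp [hk, hr0]
  have hkc : ContDiffAt ℝ ∞ k 0 := by
    have : ContDiffAt ℝ ∞ r (pt m + (0 : ℝ) • w) := by simpa using hcd
    exact this.comp (0 : ℝ) (by fun_prop)
  have hmin : IsLocalMin k 0 := by
    filter_upwards [c1'.eventually hUn] with s hs
    rw [hk0]
    apply hout _ hs
    intro h
    have h' : Phi (pt m + s • w) < 1 := h
    have := Phi_deg hw s 0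
    simp only [zero_smul, sub_zero, one_pow] at this
    rw [this] at h'
    nlinarith [sq_nonneg (s ^ 2)]
  have hd0 : deriv k 0 = 0 := hmin.deriv_eq_zero
  have hkd : HasDerivAt k (fderiv ℝ r (pt m) w) 0 := by
    have hd : HasFDerivAt r (fderiv ℝ r (pt m)) (pt m + (0 : ℝ) • w) := by
      rw [zero_smul, add_zero]
      exact (hcd.differentiableAt (by simp)).hasFDerivAt
    have h1 : HasDerivAt (fun t : ℝ => pt m + t • w) w 0 := by
      simpa using ((hasDerivAt_id (0 : ℝ)).smul_const w).const_add (pt m)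
    exact hd.comp_hasDerivAt 0 h1
  refine ⟨by rw [← hkd.deriv]; exact hd0, ?_⟩
  obtain ⟨K, T, hT, hLip⟩ :=
    (hcd.of_le (m := 1) (by exact_mod_cast le_top)).exists_lipschitzOnWith
  have h2inf : (2 : WithTop ℕ∞) ≤ ((⊤ : ℕ∞) : WithTop ℕ∞) :=
    WithTop.coe_le_coe.2 (le_top : (2 : ℕ∞) ≤ ⊤)
  refine second_le (hkc.of_le h2inf) hk0 hd0 (K := K * ‖pt m‖) ?_
  have hs1 : ∀ᶠ s : ℝ in 𝓝 0, |s| < 1 := by
    have : Tendsto (fun s : ℝ => |s|) (𝓝 0) (𝓝 |0|) := continuous_abs.tendsto 0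
    rw [abs_zero] at this
    exact this.eventually (gt_mem_nhds one_pos)
  filter_upwards [c1'.eventually hT, c2'.eventually hT, c2'.eventually hUn, hs1] with s t1 t2 t3 t4
  by_cases hs0 : s = 0
  · subst hs0
    rw [hk0]; simp
  · have hmem : pt m + s • w - (s ^ 4) • pt m ∈ Dom m := by
      show Phi _ < 1
      rw [Phi_deg hw]
      have h4 : 0 < s ^ 4 := by positivity
      have h5 : s ^ 4 < 1 := by
        have : s ^ 2 < 1 := by rwa [sq_lt_one_iff_abs_lt_one]
        nlinarith [sq_nonneg s]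
      nlinarith
    have h6 := hin _ t3 hmem
    have h7 := hLip.dist_le_mul _ t1 _ t2
    rw [Real.dist_eq, dist_eq_norm] at h7
    have h8 : ‖pt m + s • w - (pt m + s • w - (s ^ 4) • pt m)‖ = s ^ 4 * ‖pt m‖ := by
      rw [sub_sub_cancel, norm_smul, Real.norm_of_nonneg (by positivity)]
    rw [h8] at h7
    have h9 := le_abs_self (r (pt m + s • w) - r (pt m + s • w - (s ^ 4) • pt m))
    show r (pt m + s • w) ≤ _
    nlinarith

lemma not_strongly : ¬ StronglyPseudoconvexAt (Dom m) (pt m) := by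
  rintro ⟨r, hr, h⟩
  obtain ⟨a1, a2⟩ := deg_second hr (deg_ev (m := m))
  obtain ⟨b1, b2⟩ := deg_second hr (deg_iev (m := m))
  have := h (ev m) ev_ne ⟨a1, b1⟩
  unfold leviForm at this
  linarith

/-! ### The squeezing function -/

lemma image_phi {a : ℝ} (ha : |a| < 1) : phi a '' (Dom m) = Dom m := by
  ext y
  constructor
  · rintro ⟨x, hx, rfl⟩
    exact phi_mem ha hx
  · intro hy
    have ha' : |-a| < 1 := by rwa [abs_neg]
    refine ⟨phi (-a) y, phi_mem ha' hy, ?_⟩
    have := phi_phi ha' hy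
    rwa [neg_neg] at this

lemma embedding {a s : ℝ} (ha : |a| < 1) (hs : 0 < s) :
    IsHolEmbedding (Dom m) (fun x => cay s (phi a x)) := by
  have himg : (fun x => cay s (phi a x)) '' (Dom m) = cay s '' (Dom m) := by
    rw [← image_image (cay s) (phi a), image_phi ha]
  have ha' : |-a| < 1 := by rwa [abs_neg]
  refine ⟨?_, fun x hx => cay_mem hs (phi_mem ha hx), ?_, fun y => phi (-a) (yac s y), ?_, ?_⟩
  · have h1 : DifferentiableOn ℂ (cay (m := m) s) (Dom m) := fun x hx =>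
      (cay_differentiableAt (ne_of_re_pos (tau_re_pos hs
        (norm_le_of_mem (le_of_lt hx) 1)))).differentiableWithinAt
    exact h1.comp (phi_differentiableOn ha) fun x hx => phi_mem ha hx
  · rw [himg]
    exact image_cay_open hs
  · rw [himg, image_cay hs]
    have h1 : DifferentiableOn ℂ (yac (m := m) s) {y | y 1 ≠ 1 ∧ yac s y ∈ Dom m} := fun y hy =>
      (yac_differentiableAt (sub_ne_zero.2 (Ne.symm hy.1))).differentiableWithinAt
    exact (phi_differentiableOn ha').comp h1 fun y hy => hy.2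
  · intro x hx
    show phi (-a) (yac s (cay s (phi a x))) = x
    rw [yac_cay hs (norm_le_of_mem (le_of_lt (phi_mem ha hx)) 1), phi_phi ha hx]

lemma le_one_of {n : ℕ} (hn : 0 < n) {D : Set (Fin n → ℂ)} {z : Fin n → ℂ} {r : ℝ}
    (h : r ∈ {r : ℝ | 0 < r ∧ ∃ F : (Fin n → ℂ) → (Fin n → ℂ),
      IsHolEmbedding D F ∧ F z = 0 ∧ eball n r ⊆ F '' D}) : r ≤ 1 := by
  obtain ⟨h0, F, hF, -, hsub⟩ := h
  by_contra hcon
  push Not at hcon
  have h1 : (Pi.single ⟨0, hn⟩ 1 : Fin n → ℂ) ∈ eball n r := by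
    show ∑ i, ‖(Pi.single ⟨0, hn⟩ 1 : Fin n → ℂ) i‖ ^ 2 < r ^ 2
    rw [Finset.sum_eq_single (⟨0, hn⟩ : Fin n)]
    · simp only [Pi.single_eq_same, norm_one, one_pow]
      nlinarith
    · intro i _ hi
      simp [Pi.single_eq_of_ne hi]
    · simp
  obtain ⟨x, hx, hxe⟩ := hsub h1
  have h2 := hF.2.1 x hx
  rw [hxe] at h2
  have h3 : ∑ i, ‖(Pi.single ⟨0, hn⟩ 1 : Fin n → ℂ) i‖ ^ 2 < 1 ^ 2 := h2
  rw [Finset.sum_eq_single (⟨0, hn⟩ : Fin n)] at h3
  · simp at h3
  · intro i _ hi
    simp [Pi.single_eq_of_ne hi]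
  · simp

/-- the points of the sequence -/
noncomputable def zz (m : ℕ) (a s : ℝ) : Fin (m + 2) → ℂ := phi (-a) (base m (1 - s ^ 2))

lemma squeeze_mem {a s r : ℝ} (ha : |a| < 1) (hs : 0 < s) (hr : 0 < r) (hr1 : r < 1)
    (hsr : 28 * s ^ 2 ≤ (1 - r) ^ 3) :
    zz m a s ∈ Dom m ∧ r ∈ {r : ℝ | 0 < r ∧ ∃ F : (Fin (m + 2) → ℂ) → (Fin (m + 2) → ℂ),
      IsHolEmbedding (Dom m) F ∧ F (zz m a s) = 0 ∧ eball (m + 2) r ⊆ F '' (Dom m)} := by
  have ha' : |-a| < 1 := by rwa [abs_neg]
  have hs2 : 0 < s ^ 2 := by positivity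
  have hs3 : s ^ 2 < 1 := by
    have : (1 - r) ^ 3 ≤ 1 := pow_le_one₀ (by linarith) (by linarith)
    linarith
  have hb : base m (1 - s ^ 2) ∈ Dom m := base_mem (by linarith) (by linarith)
  refine ⟨phi_mem ha' hb, hr, fun x => cay s (phi a x), embedding ha hs, ?_, ?_⟩
  · have h1 : phi a (zz m a s) = base m (1 - s ^ 2) := by
      have := phi_phi ha' hb
      rwa [neg_neg] at this
    show cay s (phi a (zz m a s)) = 0
    rw [h1]
    funext i
    refine Fin.cases ?_ (fun i => ?_) i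
    · rw [cay_zero, base_zero]; simp
    · refine Fin.cases ?_ (fun i => ?_) i
      · show cay s (base m (1 - s ^ 2)) 1 = 0
        rw [cay_one, base_one]
        push_cast
        simp
      · rw [cay_succ, base_succ]; simp
  · rw [← image_image (cay s) (phi a), image_phi ha]
    intro y hy
    rw [image_cay hs]
    refine ⟨?_, yac_mem hs hr hr1 hsr hy⟩
    intro h
    rw [mem_eball, h, norm_one] at hy
    have := SS_nonneg y
    nlinarith [sq_nonneg ‖y 0‖]

lemma cc_tendsto {a : ℕ → ℝ} (ha : Tendsto a atTop (𝓝 1)) :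
    Tendsto (fun k => cc (a k)) atTop (𝓝 0) := by
  have hc : Continuous cc := by unfold cc; fun_prop
  have := (hc.tendsto 1).comp ha
  have h0 : cc 1 = 0 := by simp [cc]
  rw [h0] at this
  exact this

/-- For every `n ≥ 2` there are a bounded convex pseudoconvex domain
`D ⊂ ℂⁿ` with `C^∞` boundary, all of whose boundary points have D'Angelo type at most `4`, and a
point `p ∈ ∂D` such that the Levi form of `∂D` is everywhere `≥ 0` (Levi pseudoconvexity), the Levi
form at `p` is positive definite on a complex subspace of dimension at least `n - 2` of the complex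
tangent space (so `(D, p)` satisfies (B) and (C), and (A) if `n = 2`), `p` is not strongly
pseudoconvex, and there is a sequence in `D` converging to `p` along which the squeezing function
of `D` tends to `1`. -/
theorem main_result (n : ℕ) (hn : 2 ≤ n) :
    ∃ (D : Set (Fin n → ℂ)) (p : Fin n → ℂ),
      IsFiniteTypeDomain D ∧ Convex ℝ D ∧ p ∈ frontier D ∧
      (∃ ρ : (Fin n → ℂ) → ℝ, IsDefiningFunction D ρ ∧ (∀ q ∈ frontier D, dAngeloType ρ q ≤ 4) ∧
        (∀ z v : Fin n → ℂ, 0 ≤ leviForm ρ z v) ∧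
        ∃ W : Submodule ℂ (Fin n → ℂ), n - 2 ≤ Module.finrank ℂ W ∧
          ∀ v ∈ W, IsComplexTangent ρ p v ∧ (v ≠ 0 → 0 < leviForm ρ p v)) ∧
      ¬ StronglyPseudoconvexAt D p ∧
      ∃ z : ℕ → (Fin n → ℂ), (∀ k, z k ∈ D) ∧ Tendsto z atTop (𝓝 p) ∧
        Tendsto (fun k => squeezing D (z k)) atTop (𝓝 1) := by
  obtain ⟨m, rfl⟩ : ∃ m, n = m + 2 := ⟨n - 2, by omega⟩
  refine ⟨Dom m, pt m, Dom_finite, Dom_convex, pt_frontier,
    ⟨rho, rho_def, fun q hq => rho_type hq, ?_, ?_⟩, not_strongly, ?_⟩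
  · intro z v
    rw [leviForm_rho]
    have := SS_nonneg v
    positivity
  · -- the subspace
    let T : (Fin m → ℂ) →ₗ[ℂ] (Fin (m + 2) → ℂ) :=
      { toFun := fun v => Fin.cons 0 (Fin.cons 0 v)
        map_add' := by
          intro u v
          funext i
          refine Fin.cases ?_ (fun i => ?_) i
          · simp
          · refine Fin.cases ?_ (fun i => ?_) i
            · simp
            · simp
        map_smul' := by
          intro c v
          funext i
          refine Fin.cases ?_ (fun i => ?_) i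
          · simp
          · refine Fin.cases ?_ (fun i => ?_) i
            · simp
            · simp }
    have hT0 : ∀ v, T v 0 = 0 := fun v => rfl
    have hT1 : ∀ v, T v 1 = 0 := fun v => rfl
    have hTs : ∀ v (i : Fin m), T v i.succ.succ = v i := fun v i => rfl
    have hinj : Function.Injective T := by
      intro u v h
      funext i
      rw [← hTs u i, ← hTs v i, h]
    refine ⟨LinearMap.range T, ?_, ?_⟩
    · rw [LinearMap.finrank_range_of_inj hinj]
      simp
    · rintro v ⟨u, rfl⟩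
      have hSC : ∀ v : Fin (m + 2) → ℂ, SC (pt m) v = 0 := by
        intro v
        unfold SC
        apply Finset.sum_eq_zero
        intro i _
        simp [pt_succ, sc]
      refine ⟨⟨?_, ?_⟩, ?_⟩
      · rw [fderiv_rho, hT0, hT1, hSC, pt_zero, pt_one]
        simp [sc]
      · rw [fderiv_rho, hSC, pt_zero, pt_one]
        simp [sc, hT0]
      · intro hv
        rw [leviForm_rho, hT0, hT1, pt_one]
        have h1 : 0 < SS (T u) := by
          obtain ⟨i, hi⟩ : ∃ i, u i ≠ 0 := by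
            by_contra hcon
            push Not at hcon
            apply hv
            have : u = 0 := funext hcon
            rw [this, map_zero]
          have h2 : ‖T u i.succ.succ‖ ^ 2 ≤ SS (T u) :=
            Finset.single_le_sum (f := fun i : Fin m => ‖T u i.succ.succ‖ ^ 2)
              (fun i _ => by positivity) (Finset.mem_univ i)
          rw [hTs] at h2
          have : 0 < ‖u i‖ ^ 2 := by
            have := norm_pos_iff.2 hi
            positivity
          linarith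
        simpa using h1
  · -- the sequence
    set e : ℕ → ℝ := fun k => 1 / ((k : ℝ) + 2) with he
    have he0 : ∀ k, 0 < e k := fun k => by simp only [he]; positivity
    have he1 : ∀ k, e k ≤ 1 / 2 := fun k => by
      simp only [he]
      apply one_div_le_one_div_of_le (by norm_num)
      have : (0 : ℝ) ≤ k := by positivity
      linarith
    have het : Tendsto e atTop (𝓝 0) := by
      have h1 : Tendsto (fun k : ℕ => 1 / (((k + 1 : ℕ) : ℝ) + 1)) atTop (𝓝 0) :=
        (tendsto_add_atTop_iff_nat (f := fun k : ℕ => 1 / ((k : ℝ) + 1)) 1).2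
          tendsto_one_div_add_atTop_nhds_zero_nat
      refine h1.congr fun k => ?_
      simp only [he]
      push_cast
      ring
    have key : ∀ k, zz m (1 - e k) (e k ^ 2 / 6) ∈ Dom m ∧ (1 - e k) ∈
        {r : ℝ | 0 < r ∧ ∃ F : (Fin (m + 2) → ℂ) → (Fin (m + 2) → ℂ),
          IsHolEmbedding (Dom m) F ∧ F (zz m (1 - e k) (e k ^ 2 / 6)) = 0 ∧
            eball (m + 2) r ⊆ F '' (Dom m)} := by
      intro k
      have h0 := he0 k
      have h1 := he1 k
      apply squeeze_mem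
      · rw [abs_lt]; constructor <;> linarith
      · positivity
      · linarith
      · linarith
      · have h2 : 1 - (1 - e k) = e k := by ring
        rw [h2]
        have h3 : 28 * (e k ^ 2 / 6) ^ 2 = (28 / 36 * e k) * e k ^ 3 := by ring
        rw [h3]
        have h4 : 28 / 36 * e k ≤ 1 := by linarith
        calc (28 / 36 * e k) * e k ^ 3 ≤ 1 * e k ^ 3 := by gcongr
          _ = _ := one_mul _
    refine ⟨fun k => zz m (1 - e k) (e k ^ 2 / 6), fun k => (key k).1, ?_, ?_⟩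
    · have ha : Tendsto (fun k => 1 - e k) atTop (𝓝 1) := by
        have := tendsto_const_nhds (x := (1 : ℝ)).sub het
        simpa using this
      have hc := cc_tendsto ha
      have hs : Tendsto (fun k => (e k ^ 2 / 6)) atTop (𝓝 0) := by
        have := (het.pow 2).div_const 6
        simpa using this
      rw [tendsto_pi_nhds]
      intro i
      refine Fin.cases ?_ (fun i => ?_) i
      · have : ∀ k, zz m (1 - e k) (e k ^ 2 / 6) 0 = ((1 - e k : ℝ) : ℂ) := by
          intro k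
          unfold zz
          rw [phi_zero, base_zero]
          push_cast
          ring
        simp only [this, pt_zero]
        have h1 := (Complex.continuous_ofReal.tendsto (1 : ℝ)).comp ha
        simpa [Function.comp_def] using h1
      · refine Fin.cases ?_ (fun i => ?_) i
        · have : ∀ k, zz m (1 - e k) (e k ^ 2 / 6) 1 =
              ((cc (1 - e k) * (1 - (e k ^ 2 / 6) ^ 2) : ℝ) : ℂ) := by
            intro k
            unfold zz
            rw [phi_one, base_zero, base_one, mul_zero, sub_zero, sq_one, div_one, cc_neg]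
            push_cast
            ring
          show Tendsto (fun k => zz m (1 - e k) (e k ^ 2 / 6) 1) atTop (𝓝 (pt m 1))
          simp only [this, pt_one]
          have h1 : Tendsto (fun k => cc (1 - e k) * (1 - (e k ^ 2 / 6) ^ 2)) atTop (𝓝 0) := by
            have := hc.mul ((tendsto_const_nhds (x := (1 : ℝ))).sub (hs.pow 2))
            simpa using this
          have h2 := (Complex.continuous_ofReal.tendsto (0 : ℝ)).comp h1
          simpa [Function.comp_def] using h2
        · have : ∀ k, zz m (1 - e k) (e k ^ 2 / 6) i.succ.succ = 0 := by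
            intro k
            unfold zz
            rw [phi_succ, base_succ]
            simp
          simp only [this, pt_succ]
          exact tendsto_const_nhds
    · have hbdd : ∀ k, BddAbove {r : ℝ | 0 < r ∧ ∃ F : (Fin (m + 2) → ℂ) → (Fin (m + 2) → ℂ),
          IsHolEmbedding (Dom m) F ∧ F (zz m (1 - e k) (e k ^ 2 / 6)) = 0 ∧
            eball (m + 2) r ⊆ F '' (Dom m)} := fun k => ⟨1, fun r hr => le_one_of (by omega) hr⟩
      have h1 : ∀ k, 1 - e k ≤ squeezing (Dom m) (zz m (1 - e k) (e k ^ 2 / 6)) := fun k =>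
        le_csSup (hbdd k) (key k).2
      have h2 : ∀ k, squeezing (Dom m) (zz m (1 - e k) (e k ^ 2 / 6)) ≤ 1 := fun k =>
        csSup_le ⟨_, (key k).2⟩ fun r hr => le_one_of (by omega) hr
      have ha : Tendsto (fun k => 1 - e k) atTop (𝓝 1) := by
        have := tendsto_const_nhds (x := (1 : ℝ)).sub het
        simpa using this
      exact tendsto_of_tendsto_of_tendsto_of_le_of_le ha tendsto_const_nhds h1 h2

end Pool.Agent.U500.Egg
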